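import Pool.Agent.Helper75.FS.St

/-!
# Project FS (MP_e73f90_co), module A5: the least density in terms of the codimension
-/

set_option autoImplicit false

namespace Pool.Agent.Helper6.FS

open Pool.Agent.Helper75.FS

theorem dens_eq (n r c : ℕ) (V : Submodule (ZMod 2) (Fin n → ZMod 2))
    (h : Nat.card V * 2 ^ c = 2 ^ n) :
    (Nat.card V : ℝ) * (ball n r : ℝ) / 2 ^ n = (ball n r : ℝ) / 2 ^ c := by
  have h1 : (Nat.card V : ℝ) * 2 ^ c = 2 ^ n := by exact_mod_cast h
  have h2 : (0 : ℝ) < 2 ^ n := by positivity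
  have h3 : (0 : ℝ) < 2 ^ c := by positivity
  have h4 : (Nat.card V : ℝ) ≠ 0 := by
    intro h0
    rw [h0, zero_mul] at h1
    exact h2.ne h1
  rw [← h1]
  field_simp

theorem code_mono (hA2 : StA2) (n r c k : ℕ) : Code n r (c + k) → Code n r c := by
  induction k with
  | zero => exact fun h => h
  | succ k ih => exact fun h => ih (hA2 n r (c + k) h)

theorem hA5 (hA1 : StA1) (hA2 : StA2) (hA4 : StA4) : StA5 := by
  have hbdd : ∀ n r : ℕ, BddBelow {x : ℝ | ∃ V : Submodule (ZMod 2) (Fin n → ZMod 2),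
      Cov n r V ∧ x = (Nat.card V : ℝ) * (ball n r : ℝ) / 2 ^ n} := by
    intro n r
    refine ⟨0, ?_⟩
    rintro x ⟨V, _, rfl⟩
    positivity
  have ha : ∀ n r c, Code n r c → mm n r ≤ (ball n r : ℝ) / 2 ^ c := by
    rintro n r c ⟨V, hV, hc⟩
    rw [← dens_eq n r c V hc]
    exact csInf_le (hbdd n r) ⟨V, hV, rfl⟩
  have hc : ∀ n r c, ¬ Code n r (c + 1) → (ball n r : ℝ) / 2 ^ c ≤ mm n r := by
    intro n r c hn
    obtain ⟨V0, hV0, _⟩ := hA4.1 n r
    refine le_csInf ⟨_, V0, hV0, rfl⟩ ?_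
    rintro x ⟨V, hV, rfl⟩
    obtain ⟨c', hc'⟩ := hA1 n r V hV
    rw [dens_eq n r c' V hc']
    have hle : c' ≤ c := by
      by_contra hlt
      obtain ⟨k, hk⟩ := Nat.exists_eq_add_of_le (Nat.succ_le_of_lt (not_le.mp hlt))
      apply hn
      refine code_mono hA2 n r (c + 1) k ?_
      have h1 : c + 1 + k = c' := by omega
      rw [h1]
      exact ⟨V, hV, hc'⟩
    refine div_le_div_of_nonneg_left (Nat.cast_nonneg _) (by positivity) ?_
    exact pow_le_pow_right₀ (by norm_num) hle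
  refine ⟨ha, ?_, hc⟩
  intro n r
  classical
  have hex : ∃ k, ¬ Code n r (k + 1) :=
    ⟨n, fun h => absurd (hA4.2.2.1 n r (n + 1) h) (by omega)⟩
  have h1 := Nat.find_spec hex
  have h2 : Code n r (Nat.find hex) := by
    rcases Nat.eq_zero_or_pos (Nat.find hex) with h0 | h0
    · rw [h0]
      exact hA4.1 n r
    · have h3 := Nat.find_min hex (Nat.sub_lt h0 Nat.one_pos)
      rw [not_not, Nat.sub_add_cancel h0] at h3
      exact h3
  exact ⟨Nat.find hex, h2, h1, le_antisymm (ha n r _ h2) (hc n r _ h1)⟩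

end Pool.Agent.Helper6.FS
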